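import Mathlib

open MeasureTheory Filter Topology Set FourierTransform

namespace Pool.Agent.Results.MP_977787_an.Scaled

/-- The dilated Fourier transform `A f (ξ) = ∫ f(x) exp(-4 π i x ξ) dx`. -/
noncomputable def A (f : ℝ → ℂ) (ξ : ℝ) : ℂ := 𝓕 f (2 * ξ)

/-- `f ∈ L^p(ℝ)`. -/
def InL (p : ℝ) (f : ℝ → ℂ) : Prop :=
  AEStronglyMeasurable f volume ∧ Integrable fun x => ‖f x‖ ^ p

/-- The `L^p` norm. -/
noncomputable def N (p : ℝ) (f : ℝ → ℂ) : ℝ := (∫ x, ‖f x‖ ^ p) ^ (1 / p)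

/-- `C` is admissible for `(A, p)`, tested only on `f ∈ L¹ ∩ L²`. -/
def Adm (p C : ℝ) : Prop :=
  0 < C ∧ ∀ f : ℝ → ℂ, InL 1 f → InL 2 f → InL p f → InL p (A f) → ¬ f =ᵐ[volume] 0 →
    C ≤ N p f * N p (A f) / (N 2 f * N 2 (A f))

noncomputable def g (x : ℝ) : ℂ := Complex.exp (-Real.pi * 2 * (x : ℂ) ^ 2)

lemma gn (x p : ℝ) : ‖g x‖ ^ p = Real.exp (-(Real.pi * 2 * p) * x ^ 2) := by
  have : g x = ((Real.exp (-Real.pi * 2 * x ^ 2) : ℝ) : ℂ) := by simp [g]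
  rw [this, Complex.norm_real, Real.norm_of_nonneg (Real.exp_pos _).le, ← Real.exp_mul]
  congr 1; ring

lemma gc : Continuous g := by unfold g; fun_prop

lemma gL {p : ℝ} (hp : 0 < p) : InL p g :=
  ⟨gc.aestronglyMeasurable, by
    simp only [gn]; exact integrable_exp_neg_mul_sq (by positivity)⟩

noncomputable def c : ℂ := 1 / (2 : ℂ) ^ (1 / 2 : ℂ)

lemma c0 : 0 < ‖c‖ := by
  rw [norm_pos_iff, c]
  exact one_div_ne_zero (by simp)

lemma Ag : A g = fun x => c * g x := by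
  ext ξ
  have := congrFun (fourier_gaussian_pi (b := 2) (by norm_num)) (2 * ξ)
  unfold A g c
  rw [this]
  congr 2
  push_cast; ring

lemma Ng {p : ℝ} (hp : 0 < p) : N p g = (2 * p) ^ (-(1 / (2 * p))) := by
  unfold N
  simp only [gn]
  rw [integral_gaussian, show Real.pi / (Real.pi * 2 * p) = (2 * p)⁻¹ by field_simp,
    Real.sqrt_eq_rpow, ← Real.rpow_mul (by positivity), Real.inv_rpow (by positivity),
    ← Real.rpow_neg (by positivity)]
  congr 2; field_simp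

lemma NA {p : ℝ} (hp : 0 < p) : N p (A g) = ‖c‖ * N p g := by
  unfold N
  rw [Ag]
  simp only [norm_mul, Real.mul_rpow (norm_nonneg _) (norm_nonneg _)]
  rw [integral_const_mul, Real.mul_rpow (by positivity) (integral_nonneg fun _ => by positivity),
    ← Real.rpow_mul (norm_nonneg _), mul_one_div_cancel hp.ne', Real.rpow_one]

lemma le1 {p C : ℝ} (h1 : 1 ≤ p) (h2 : p ≤ 2) (h : Adm p C) : C ≤ 1 := by
  have hp : 0 < p := by linarith
  have hA : InL p (A g) := by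
    rw [Ag]
    refine ⟨(continuous_const.mul gc).aestronglyMeasurable, ?_⟩
    simp only [norm_mul, Real.mul_rpow (norm_nonneg _) (norm_nonneg _)]
    exact (gL hp).2.const_mul _
  have hne : ¬ g =ᵐ[volume] 0 := fun e => by
    have := congrFun ((gc.ae_eq_iff_eq volume continuous_zero).1 e) 0
    simp [g] at this
  refine (h.2 g (gL one_pos) (gL two_pos) (gL hp) hA hne).trans ?_
  have h22 : 0 < N 2 g := by rw [Ng two_pos]; positivity
  have hle : N p g ≤ N 2 g := by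
    rw [Ng hp, Ng two_pos]
    have b := rpow_one_add_le_one_add_mul_self (s := 1) (by norm_num) (p := p - 1)
      (by linarith) (by linarith)
    have b2 : (2 : ℝ) ^ p ≤ 2 * p := by
      have : (2 : ℝ) ^ p = 2 * 2 ^ (p - 1) := by
        rw [Real.rpow_sub two_pos, Real.rpow_one]; ring
      rw [this]; norm_num at b; linarith
    refine (Real.rpow_le_rpow_of_nonpos (by positivity) b2 (by
      have : 0 < 1 / (2 * p) := by positivity
      linarith)).trans (le_of_eq ?_)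
    rw [← Real.rpow_mul (by norm_num), show (2 : ℝ) * 2 = 2 ^ (2 : ℝ) by norm_num,
      ← Real.rpow_mul (by norm_num)]
    congr 1
    rw [show (2 : ℝ) ^ (2 : ℝ) = 4 by norm_num]
    field_simp; norm_num
  have hp0 : 0 ≤ N p g := by rw [Ng hp]; positivity
  rw [NA hp, NA two_pos, div_le_one (by have := c0; positivity)]
  have := mul_le_mul hle hle hp0 h22.le
  nlinarith [c0]

theorem result : (∀ f ξ, ‖A f ξ‖ ≤ ∫ x, ‖f x‖) ∧
    (∀ f : SchwartzMap ℝ ℂ, ∫ ξ, ‖A f ξ‖ ^ 2 = (1 / 2) * ∫ x, ‖f x‖ ^ 2) ∧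
    (∀ h : SchwartzMap ℝ ℂ, ∃ f : SchwartzMap ℝ ℂ, A f = h) ∧ ¬ ∃ σ : ℝ, 0 < σ ∧ σ ≤ 1 ∧ ∃ C : ℝ → ℝ,
    (∀ p ∈ Ioo (2 - σ) 2, Adm p (C p)) ∧ Tendsto C (𝓝[<] 2) (𝓝 1) ∧
      StrictAntiOn C (Ioo (2 - σ) 2) := by
  refine ⟨fun f ξ => ?_, fun f => ?_, fun h => ?_, ?_⟩
  · rw [A, Real.fourier_eq']
    refine (norm_integral_le_integral_norm _).trans (le_of_eq ?_)
    congr 1; ext x
    rw [norm_smul, Complex.norm_exp_ofReal_mul_I, one_mul]
  · have := Measure.integral_comp_mul_left (fun ξ : ℝ => ‖𝓕 (f : ℝ → ℂ) ξ‖ ^ 2) (2 : ℝ)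
    unfold A
    rw [this, ← SchwartzMap.integral_norm_sq_fourier f, smul_eq_mul]
    congr 1
    rw [abs_of_pos (by norm_num)]; norm_num
  · let e : ℝ ≃L[ℝ] ℝ := ContinuousLinearEquiv.unitsEquivAut ℝ (Units.mk0 (1 / 2 : ℝ) (by norm_num))
    refine ⟨𝓕⁻ (SchwartzMap.compCLMOfContinuousLinearEquiv ℂ e h), ?_⟩
    ext ξ
    unfold A
    rw [← SchwartzMap.fourier_coe, fourier_fourierInv_eq]
    simp [e]
    congr 1; ring
  rintro ⟨σ, h0, h1, C, hA, hT, hS⟩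
  have m1 : 2 - σ / 2 ∈ Ioo (2 - σ) 2 := ⟨by linarith, by linarith⟩
  have m2 : 2 - σ / 4 ∈ Ioo (2 - σ) 2 := ⟨by linarith, by linarith⟩
  have a1 := le1 (by linarith) (by linarith) (hA _ m1)
  have a2 := hS m1 m2 (by linarith)
  have a3 : 1 ≤ C (2 - σ / 4) := by
    refine le_of_tendsto hT ?_
    filter_upwards [Ioo_mem_nhdsLT (show 2 - σ / 4 < 2 by linarith)] with p hp
    exact (hS m2 ⟨by linarith [hp.1], hp.2⟩ hp.1).le
  linarith

end Pool.Agent.Results.MP_977787_an.Scaled
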